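import Pool.Agent.Helper83.CK.St

/-!
# Project CK (MP_f663dd_lc): module A
-/

set_option autoImplicit false

namespace Pool.Agent.Helper90.CK

open Pool.Agent.Helper83.CK Cardinal Set
universe u

/-- If `c ^ ℵ₀ ≤ c` then the successor cardinal `s` of `c` satisfies `s ^ ℵ₀ ≤ s`. -/
theorem succ_pow (c : Cardinal.{u}) (hc : ℵ₀ ≤ c) (h : c ^ ℵ₀ ≤ c) :
    (Order.succ c) ^ ℵ₀ ≤ Order.succ c := by
  set ν := Order.succ c with hν
  have hcν : c < ν := Order.lt_succ c
  have hν0 : ℵ₀ ≤ ν := hc.trans hcν.le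
  let X := ν.ord.ToType
  have hX : #X = ν := mk_ord_toType ν
  have hIio : ∀ a : X, #(Iio a) ≤ c := by
    intro a
    have h1 : #(Iio a) < ν := mk_Iio_ord_toType a
    exact Order.lt_succ_iff.1 h1
  have hIic : ∀ a : X, #(Iic a) ≤ c := by
    intro a
    have h1 : (Iic a) = insert a (Iio a) := by
      ext b
      simp [le_iff_eq_or_lt]
    rw [h1]
    refine (mk_insert_le).trans ?_
    refine (add_le_add (hIio a) (one_le_aleph0.trans hc)).trans ?_
    rw [add_eq_self hc]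
  -- bounded functions
  have hbd : ∀ f : ULift.{u} ℕ → X, ∃ a : X, ∀ n, f n < a := by
    intro f
    by_contra hcon
    push Not at hcon
    have h1 : (⋃ n : ULift.{u} ℕ, Iic (f n)) = (Set.univ : Set X) := by
      rw [Set.eq_univ_iff_forall]
      intro a
      obtain ⟨n, hn⟩ := hcon a
      exact Set.mem_iUnion.2 ⟨n, hn⟩
    have h2 : #X ≤ #(ULift.{u} ℕ) * ⨆ n : ULift.{u} ℕ, #(Iic (f n)) := by
      rw [← mk_univ, ← h1]
      exact mk_iUnion_le _
    have h3 : (⨆ n : ULift.{u} ℕ, #(Iic (f n))) ≤ c := ciSup_le' (fun n => hIic (f n))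
    have h4 : #(ULift.{u} ℕ) = ℵ₀ := by simp
    have h5 : #X ≤ c := by
      refine h2.trans ((mul_le_mul' (h4.le.trans hc) h3).trans ?_)
      rw [mul_eq_self hc]
    rw [hX] at h5
    exact absurd h5 (not_le.2 hcν)
  have h4 : #(ULift.{u} ℕ) = ℵ₀ := by simp
  have h6 : ν ^ ℵ₀ = #(ULift.{u} ℕ → X) := by
    rw [← hX, ← h4, power_def]
  have h7 : (⋃ a : X, {f : ULift.{u} ℕ → X | ∀ n, f n < a}) = Set.univ := by
    rw [Set.eq_univ_iff_forall]
    intro f
    obtain ⟨a, ha⟩ := hbd f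
    exact Set.mem_iUnion.2 ⟨a, ha⟩
  have h8 : ∀ a : X, #{f : ULift.{u} ℕ → X | ∀ n, f n < a} ≤ c := by
    intro a
    have h9 : #{f : ULift.{u} ℕ → X | ∀ n, f n < a} ≤ #(ULift.{u} ℕ → Iio a) := by
      refine mk_le_of_injective
        (f := fun f : {f : ULift.{u} ℕ → X | ∀ n, f n < a} => fun n => (⟨f.1 n, f.2 n⟩ : Iio a)) ?_
      intro f g hfg
      apply Subtype.ext
      funext n
      exact congrArg Subtype.val (congrFun hfg n)
    refine h9.trans ?_
    rw [← power_def, h4]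
    exact (power_le_power_right (hIio a)).trans h
  rw [h6, ← mk_univ, ← h7]
  refine (mk_iUnion_le _).trans ?_
  have h10 : (⨆ a : X, #{f : ULift.{u} ℕ → X | ∀ n, f n < a}) ≤ ν :=
    ciSup_le' (fun a => (h8 a).trans hcν.le)
  refine (mul_le_mul' hX.le h10).trans ?_
  rw [mul_eq_self hν0]

theorem mA : StA.{u} := by
  intro n k hnk hn hck
  let S : Set Cardinal.{u} := {c | k ≤ c ^ ℵ₀}
  have hS : S.Nonempty := ⟨n, hn.ge⟩
  let ν := sInf S
  have hνS : k ≤ ν ^ ℵ₀ := csInf_mem hS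
  have hνn : ν ≤ n := csInf_le' (show n ∈ S from hn.ge)
  have hνk : ν ^ ℵ₀ = k := le_antisymm ((power_le_power_right hνn).trans hn.le) hνS
  have hνltk : ν < k := hνn.trans_lt hnk
  have hmin : ∀ c < ν, c ^ ℵ₀ < k := by
    intro c hc
    by_contra hcon
    exact absurd (csInf_le' (show c ∈ S from not_lt.1 hcon)) (not_le.2 hc)
  have hmin2 : ∀ c < ν, c ^ ℵ₀ < ν := by
    intro c hc
    by_contra hcon
    have h1 : ν ^ ℵ₀ ≤ (c ^ ℵ₀) ^ ℵ₀ := power_le_power_right (not_lt.1 hcon)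
    rw [← power_mul, aleph0_mul_aleph0, hνk] at h1
    exact absurd h1 (not_le.2 (hmin c hc))
  have hcν : 𝔠 < ν := by
    by_contra hcon
    have h1 : ν ^ ℵ₀ ≤ 𝔠 ^ ℵ₀ := power_le_power_right (not_lt.1 hcon)
    rw [continuum_power_aleph0, hνk] at h1
    exact absurd h1 (not_le.2 hck)
  refine ⟨ν, hνltk, hcν, hνk, hmin2, ?_⟩
  intro c hc
  by_contra hcon
  have heq : ν = Order.succ c := le_antisymm (not_lt.1 hcon) (Order.succ_le_of_lt hc)
  have h1 : 𝔠 ≤ c := by
    rw [heq] at hcν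
    exact Order.lt_succ_iff.1 hcν
  have h2 : c ^ ℵ₀ ≤ c := by
    have := hmin2 c hc
    rw [heq] at this
    exact Order.lt_succ_iff.1 this
  have h3 := succ_pow c (aleph0_le_continuum.trans h1) h2
  rw [← heq, hνk] at h3
  exact absurd h3 (not_le.2 hνltk)

end Pool.Agent.Helper90.CK
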